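import Pool.Agent.W2helper23.SG.Stm

/-!
# Squares of values of linear characters of 2-power order
-/

set_option autoImplicit false
set_option linter.unusedSectionVars false

namespace Pool.Agent.W2helper53.SG

open NumberField NumberField.ComplexEmbedding Pool.Agent.R389 Pool.Agent.K4H74.ST
open Pool.Agent.W2helper23.SG

theorem JJ_vanish {G : Type} [Group G] [Finite G] {X : Set G}
    (hX : ∀ c ∈ X, ∀ g : G, g⁻¹ * c * g ∈ X) {f : G → ℂ} (hf : f ∈ JJ X) :
    ∀ c ∈ X, f c = 0 := by
  classical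
  have : Fintype G := Fintype.ofFinite G
  have h1 : JJ X ≤ ({ carrier := {f | ∀ c ∈ X, f c = 0}
                      zero_mem' := fun c _ => rfl
                      add_mem' := fun {a b} ha hb c hc => by
                        rw [Pi.add_apply, ha c hc, hb c hc, add_zero]
                      neg_mem' := fun {a} ha c hc => by
                        rw [Pi.neg_apply, ha c hc, neg_zero] } : AddSubgroup (G → ℂ)) := by
    rw [JJ, AddSubgroup.closure_le]
    rintro f ⟨H, ψ, hH, rfl⟩
    intro c hc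
    rw [ind_eq, Finset.sum_eq_zero, mul_zero]
    intro x _
    exact ext_not _ _ (hH _ (hX c hc x))
  exact h1 hf

theorem sq_of_eq {M : Type} [CommGroup M] {x y : M} (h : x⁻¹ * y = x * y⁻¹) : x * x = y * y := by
  have h1 : y = x * (x * y⁻¹) := by rw [← h, mul_inv_cancel_left]
  calc x * x = x * (x * y⁻¹) * y := by rw [mul_assoc, inv_mul_cancel_right]
    _ = y * y := by rw [← h1]

theorem SG4 : P_SG4 := by
  intro M _ A hC K L _ _ _ _ _ _ ψ k hψ
  obtain ⟨N, i1, i2, i3, i4, i5, i6, η, ε, hη, hε, hY, hrel⟩ := exists_twist ψ k hψ Set.univ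
  have hfinN : FiniteDimensional K N := Module.Finite.of_restrictScalars_finite ℚ K N
  have hodd : ∀ c ∈ CC K N, η c = -1 := by
    rintro c ⟨φ, hφ⟩
    exact (hY φ c hφ).mpr (Set.mem_univ _)
  refine ⟨N, i1, i2, i3, i4, i5, i6, ε, hε, ?_, ?_⟩
  · intro c hc
    have h1 := JJ_vanish (fun c hc g => CC_conj hc g) hrel c hc
    simp only [Pi.add_apply, Pi.sub_apply, lc, MonoidHom.mul_apply, Units.val_mul,
      MonoidHom.comp_apply, hodd c hc, Units.val_neg, Units.val_one] at h1
    apply Units.ext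
    linear_combination (1 / 2 : ℂ) * h1
  · let ψ' : (N ≃ₐ[K] N) →* ℂˣ := ψ.comp (AlgEquiv.restrictNormalHom L)
    have h1 := JJ_le hC hrel
    have h2 : lc (ψ' * η) - lc ψ' - lc (η * ε) + lc ε
        = (lc (ψ' * η) + lc ε) - (lc ψ' + lc (η * ε)) := by abel
    change lc (ψ' * η) - lc ψ' - lc (η * ε) + lc ε ∈ _ at h1
    rw [h2] at h1
    have h3 := val_eq_of_sub A ((IsChar.lc _).add (IsChar.lc _)) ((IsChar.lc _).add (IsChar.lc _)) h1
    rw [A.val_add K N _ _ (IsChar.lc _) (IsChar.lc _),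
      A.val_add K N _ _ (IsChar.lc _) (IsChar.lc _)] at h3
    have h4 := JJ_le hC (odd_JJ hη hodd ψ')
    rw [mem_TT_char A ((IsChar.lc _).add (IsChar.lc _)), Subgroup.mem_bot,
      A.val_add K N _ _ (IsChar.lc _) (IsChar.lc _)] at h4
    have h5 := JJ_le hC (odd_JJ hη hodd ε)
    rw [mem_TT_char A ((IsChar.lc _).add (IsChar.lc _)), Subgroup.mem_bot,
      A.val_add K N _ _ (IsChar.lc _) (IsChar.lc _)] at h5
    have h6 : ε * η = η * ε := by
      ext g
      simp only [MonoidHom.mul_apply, mul_comm]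
    rw [h6] at h5
    have h7 : A.val K N (lc ψ') = A.val K L (lc ψ) := val_lin_res (A := A) (N := N) ψ
    change A.val K L (lc ψ) ^ 2 = A.val K N (lc ε) ^ 2
    rw [← h7]
    have h8 : A.val K N (lc (ψ' * η)) = (A.val K N (lc ψ'))⁻¹ := eq_inv_of_mul_eq_one_right h4
    have h9 : A.val K N (lc (η * ε)) = (A.val K N (lc ε))⁻¹ := eq_inv_of_mul_eq_one_right h5
    rw [h8, h9] at h3
    rw [pow_two, pow_two]
    exact sq_of_eq h3

end Pool.Agent.W2helper53.SG
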