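import Pool.Agent.W2helper53.SG.Lin

/-!
# Values of sign characters
-/

set_option autoImplicit false
set_option linter.unusedSectionVars false

namespace Pool.Agent.W2helper53.SG

open NumberField NumberField.ComplexEmbedding Pool.Agent.R389 Pool.Agent.K4H74.ST
open Pool.Agent.W2helper23.SG

section

variable {F N : Type} [Field F] [NumberField F] [Field N] [NumberField N] [Algebra F N]
  [IsGalois F N]

theorem neg_iff (s : (N ≃ₐ[F] N) →* ℂˣ) {φ : N →+* ℂ} {c : N ≃ₐ[F] N} (h : IsConj φ c) :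
    s c = -1 ↔ Neg s (φ.comp (algebraMap F N)) := by
  constructor
  · intro h1
    exact ⟨φ, c, h, rfl, h1⟩
  · rintro ⟨φ', c', h', hκ, h1⟩
    rw [← conj_same s h' h hκ]
    exact h1

theorem neg_real {s : (N ≃ₐ[F] N) →* ℂˣ} {κ : F →+* ℂ} (h : Neg s κ) : IsReal κ := by
  obtain ⟨φ, c, hc, rfl, -⟩ := h
  exact hc.isReal_comp

variable (N) in
theorem exists_over {κ : F →+* ℂ} (h : IsReal κ) :
    ∃ (φ : N →+* ℂ) (c : N ≃ₐ[F] N), IsConj φ c ∧ φ.comp (algebraMap F N) = κ := by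
  have hfin : FiniteDimensional F N := Module.Finite.of_restrictScalars_finite ℚ F N
  let φ : N →+* ℂ := ComplexEmbedding.lift N κ
  have h2 : φ.comp (algebraMap F N) = κ := ComplexEmbedding.lift_comp_algebraMap N _
  obtain ⟨c, hc⟩ := exists_conj (K := F) (φ := φ) (by rw [h2]; exact h)
  exact ⟨φ, c, hc, h2⟩

theorem neg_res {N' : Type} [Field N'] [NumberField N'] [Algebra F N'] [Algebra N N']
    [IsScalarTower F N N'] [IsGalois F N'] (s : (N ≃ₐ[F] N) →* ℂˣ) (κ : F →+* ℂ) :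
    Neg (s.comp (AlgEquiv.restrictNormalHom N) : (N' ≃ₐ[F] N') →* ℂˣ) κ ↔ Neg s κ := by
  have hcomp : ∀ φ : N' →+* ℂ, (φ.comp (algebraMap N N')).comp (algebraMap F N)
      = φ.comp (algebraMap F N') := by
    intro φ
    ext x
    change φ (algebraMap N N' (algebraMap F N x)) = φ (algebraMap F N' x)
    rw [← IsScalarTower.algebraMap_apply F N N']
  constructor
  · rintro ⟨φ, c, hc, hκ, h1⟩
    exact ⟨_, _, isConj_res hc, (hcomp φ).trans hκ, h1⟩
  · intro h
    obtain ⟨φ, c, hc, hκ⟩ := exists_over N' (neg_real h)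
    refine ⟨φ, c, hc, hκ, ?_⟩
    have h1 : IsConj (φ.comp (algebraMap N N')) (AlgEquiv.restrictNormalHom N c) := isConj_res hc
    have h2 := (neg_iff s h1).2 (by rw [hcomp, hκ]; exact h)
    exact h2

variable (F N) in
theorem exists_one (κ : F →+* ℂ) (hκ : IsReal κ) :
    ∃ (N' : Type) (_ : Field N') (_ : NumberField N') (_ : Algebra F N') (_ : Algebra N N')
      (_ : IsScalarTower F N N') (_ : IsGalois F N') (s : (N' ≃ₐ[F] N') →* ℂˣ), Sg s ∧
      (∃ j : N', j * j = -1) ∧ ∀ κ', Neg s κ' ↔ κ' = κ := by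
  classical
  obtain ⟨α, hα⟩ := exists_sign F {κ}
  obtain ⟨N', i1, i2, i3, i4, i5, i6, hN'⟩ := exists_ext F N {algebraMap F N α, -1}
  obtain ⟨w, hw⟩ := hN' (algebraMap F N α) (by simp)
  obtain ⟨j, hj⟩ := hN' (-1) (by simp)
  rw [← IsScalarTower.algebraMap_apply] at hw
  have hwf : ∀ g : N' ≃ₐ[F] N', g (w * w) = w * w := fun g => by rw [hw, AlgEquiv.commutes]
  refine ⟨N', i1, i2, i3, i4, i5, i6, sgnHom w hwf, sgnHom_sg w hwf, ⟨j, by rw [hj, map_neg,
    map_one]⟩, fun κ' => ?_⟩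
  have hre : ∀ (φ : N' →+* ℂ), φ (w * w) = (φ.comp (algebraMap F N')) α := by
    intro φ
    rw [hw]
    rfl
  have him : ∀ (φ : N' →+* ℂ), IsReal (φ.comp (algebraMap F N')) → (φ (w * w)).im = 0 := by
    intro φ h
    rw [hre, ← Complex.conj_eq_iff_im]
    exact RingHom.congr_fun h α
  constructor
  · rintro ⟨φ, c, hc, hκ', h1⟩
    have h1' : sgn w c = -1 := h1
    rw [sgn_eq_neg] at h1'
    by_contra hne
    apply h1'
    have hr : IsReal (φ.comp (algebraMap F N')) := hc.isReal_comp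
    refine sqrt_pos hc (him φ hr) ?_
    rw [hre]
    exact (hα _ hr).2 (by rw [hκ']; simpa using hne)
  · rintro rfl
    obtain ⟨φ, c, hc, hκ'⟩ := exists_over N' hκ
    refine ⟨φ, c, hc, hκ', ?_⟩
    have hr : IsReal (φ.comp (algebraMap F N')) := hc.isReal_comp
    have h5 : (φ (w * w)).re < 0 := by
      rw [hre]
      exact (hα _ hr).1 (by rw [hκ']; simp)
    change sgn w c = -1
    rw [sgn_eq_neg, sqrt_neg hc (him φ hr) h5]
    intro h6
    have h7 : w = 0 := self_eq_neg.mp h6.symm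
    rw [h7] at h5
    simp at h5

theorem hom_one_mul {G : Type} [Group G] (s : G →* ℂˣ) : 1 * s = s := by
  ext g
  rw [MonoidHom.mul_apply, MonoidHom.one_apply, one_mul]

theorem hom_sq_mul {G : Type} [Group G] {s : G →* ℂˣ} (hs : Sg s) (r : G →* ℂˣ) :
    s * (s * r) = r := by
  ext g
  rw [MonoidHom.mul_apply, MonoidHom.mul_apply]
  rcases hs g with h | h <;> rw [h] <;> simp

variable {M : Type} [CommGroup M] {A : ArtinInvariant M}

theorem val_lc_one : A.val F N (lc 1) = b1 A F := by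
  have h := A.val_infl F F N (lc 1) (IsChar.lc 1)
  have h1 : (fun g => lc (1 : (F ≃ₐ[F] F) →* ℂˣ) (AlgEquiv.restrictNormalHom F g))
      = lc (1 : (N ≃ₐ[F] N) →* ℂˣ) := rfl
  have h2 : lc (1 : (F ≃ₐ[F] F) →* ℂˣ) = fun _ => 1 := by
    funext g
    simp [lc]
  rw [h1, h2] at h
  exact h

theorem val_key (hC : TrivComplex A) {j : N} (hj : j * j = -1) {s₂ s₃ : (N ≃ₐ[F] N) →* ℂˣ}
    (h2 : Sg s₂) (h3 : Sg s₃) (hX : ∀ c ∈ CC F N, ¬ (s₂ c = -1 ∧ s₃ c = -1)) :
    A.val F N (lc s₂) * A.val F N (lc s₃) = b1 A F * A.val F N (lc (s₂ * s₃)) := by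
  have hfin : FiniteDimensional F N := Module.Finite.of_restrictScalars_finite ℚ F N
  obtain ⟨s₀, hs₀, hodd⟩ := odd_i (K := F) hj
  have hmul : Sg (s₂ * s₃) := h2.mul h3
  rw [← val_lc_one (A := A) (F := F) (N := N)]
  have hmem : (lc s₂ + lc s₃) - (lc 1 + lc (s₂ * s₃)) ∈ JJ (CC F N) := by
    by_cases ht : ∃ t, (s₂ * s₃) t = -1
    · obtain ⟨t, ht⟩ := ht
      have e1 := ind_two' hmul ht s₂
      have e2 := ind_two' hmul ht 1
      have e3 : s₂ * (s₂ * s₃) = s₃ := hom_sq_mul h2 s₃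
      rw [e3] at e1
      rw [hom_one_mul] at e2
      rw [← e1, ← e2]
      have e4 : ind (s₂ * s₃).ker (fun h => lc s₂ h) - ind (s₂ * s₃).ker
          (fun h => lc (1 : (N ≃ₐ[F] N) →* ℂˣ) h)
          = ind (s₂ * s₃).ker (lc (1 * s₂.comp (s₂ * s₃).ker.subtype)
            - lc (1 : (s₂ * s₃).ker →* ℂˣ)) := by
        rw [hom_one_mul, ← indHom_apply, ← indHom_apply, ← indHom_apply, ← map_sub]
        rfl
      rw [e4]
      refine ind_JJ _ ?_
      refine even_JJ (s₀ := s₀.comp (s₂ * s₃).ker.subtype) (fun g => hs₀ _) ?_ (fun g => h2 _) ?_ 1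
      · intro x hx
        exact hodd _ hx
      · intro x hx
        have hx2 : (s₂ * s₃) (x : N ≃ₐ[F] N) = 1 := x.2
        rw [MonoidHom.mul_apply] at hx2
        change s₂ (x : N ≃ₐ[F] N) = 1
        refine (h2 _).resolve_right fun hneg => hX _ hx ⟨hneg, ?_⟩
        rw [hneg] at hx2
        rcases h3 (x : N ≃ₐ[F] N) with h | h
        · rw [h, mul_one] at hx2
          exact absurd hx2 neg_one_ne
        · exact h
    · push Not at ht
      have e1 : s₃ = s₂ := by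
        have e2 : ∀ g, s₂ g * s₃ g = 1 := fun g => (hmul g).resolve_right (ht g)
        ext g
        congr 1
        have e3 := h2.sq
        have e4 : s₂ g * s₂ g = 1 := by
          rw [← MonoidHom.mul_apply, e3, MonoidHom.one_apply]
        have e5 := e2 g
        rw [← e4] at e5
        exact mul_left_cancel e5
      have e2 : s₂ * s₃ = 1 := by rw [e1, h2.sq]
      have e3 : ∀ c ∈ CC F N, s₂ c = 1 := by
        intro c hc
        refine (h2 c).resolve_right fun h => hX c hc ⟨h, ?_⟩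
        rw [e1]; exact h
      have e4 := even_JJ hs₀ hodd h2 e3 1
      rw [hom_one_mul] at e4
      rw [e2, e1]
      have e5 : lc s₂ + lc s₂ - (lc 1 + lc (1 : (N ≃ₐ[F] N) →* ℂˣ))
          = (lc s₂ - lc 1) + (lc s₂ - lc 1) := by abel
      rw [e5]
      exact add_mem e4 e4
  have h4 := val_eq_of_sub A ((IsChar.lc _).add (IsChar.lc _)) ((IsChar.lc _).add (IsChar.lc _))
    (JJ_le hC hmem)
  rw [A.val_add F N _ _ (IsChar.lc _) (IsChar.lc _),
    A.val_add F N _ _ (IsChar.lc _) (IsChar.lc _)] at h4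
  exact h4

end

section

variable (F : Type) [Field F] [NumberField F] {M : Type} [CommGroup M] (A : ArtinInvariant M)

/-- a field with a sign character whose only negative embedding is `κ`, and its value -/
theorem exists_val (κ : F →+* ℂ) : ∃ m : M, IsReal κ →
    ∃ (N : Type) (_ : Field N) (_ : NumberField N) (_ : Algebra F N) (_ : IsGalois F N)
      (s : (N ≃ₐ[F] N) →* ℂˣ), Sg s ∧ (∀ κ', Neg s κ' ↔ κ' = κ) ∧ A.val F N (lc s) = m := by
  by_cases h : IsReal κ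
  · obtain ⟨N', i1, i2, i3, i4, i5, i6, s, hs, -, h1⟩ := exists_one F F κ h
    exact ⟨_, fun _ => ⟨N', i1, i2, i3, i6, s, hs, h1, rfl⟩⟩
  · exact ⟨1, fun h' => absurd h' h⟩

variable {F A}

theorem val_single (hSG2 : P_SG2) (hC : TrivComplex A) {m : (F →+* ℂ) → M}
    (hm : ∀ κ, IsReal κ → ∃ (N : Type) (_ : Field N) (_ : NumberField N) (_ : Algebra F N)
      (_ : IsGalois F N) (s : (N ≃ₐ[F] N) →* ℂˣ), Sg s ∧ (∀ κ', Neg s κ' ↔ κ' = κ) ∧
      A.val F N (lc s) = m κ) (κ : F →+* ℂ) (hκ : IsReal κ)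
    {N : Type} [Field N] [NumberField N] [Algebra F N] [IsGalois F N] (s : (N ≃ₐ[F] N) →* ℂˣ)
    (hs : Sg s) (h : ∀ κ', Neg s κ' ↔ κ' = κ) : A.val F N (lc s) = m κ := by
  obtain ⟨N₀, i1, i2, i3, i4, s₀, hs₀, h0, h1⟩ := hm κ hκ
  rw [← h1]
  exact hSG2 M A hC F N N₀ s s₀ hs hs₀ fun κ' => by rw [h, h0]

theorem comm_alg {b m P a : M} (h : m * (b * P) = b * a) : a = b * ((b / m)⁻¹ * P) := by
  have h1 : a = m * P := by
    have h2 : b * a = b * (m * P) := by rw [← h, mul_left_comm]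
    exact mul_left_cancel h2
  rw [h1, inv_div, div_mul_eq_mul_div, mul_div_cancel]

open Classical in
theorem val_all (hSG2 : P_SG2) (hC : TrivComplex A) {m : (F →+* ℂ) → M}
    (hm : ∀ κ, IsReal κ → ∃ (N : Type) (_ : Field N) (_ : NumberField N) (_ : Algebra F N)
      (_ : IsGalois F N) (s : (N ≃ₐ[F] N) →* ℂˣ), Sg s ∧ (∀ κ', Neg s κ' ↔ κ' = κ) ∧
      A.val F N (lc s) = m κ) (n : ℕ) :
    ∀ (N : Type) [Field N] [NumberField N] [Algebra F N] [IsGalois F N]
      (s : (N ≃ₐ[F] N) →* ℂˣ), Sg s → (Finset.univ.filter fun κ => Neg s κ).card = n →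
      A.val F N (lc s) = b1 A F * ∏ κ : F →+* ℂ, if Neg s κ then (b1 A F / m κ)⁻¹ else 1 := by
  induction n with
  | zero =>
    intro N _ _ _ _ s hs hcard
    rw [Finset.card_eq_zero, Finset.filter_eq_empty_iff] at hcard
    have h1 : ∀ κ : F →+* ℂ, ¬ Neg s κ := fun κ => hcard (Finset.mem_univ κ)
    have h2 : A.val F N (lc s) = A.val F N (lc 1) := by
      refine hSG2 M A hC F N N s 1 hs (fun g => Or.inl rfl) fun κ => ?_
      refine ⟨fun h => absurd h (h1 κ), ?_⟩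
      rintro ⟨φ, c, -, -, h3⟩
      exact absurd h3.symm neg_one_ne
    rw [h2, val_lc_one, Finset.prod_eq_one, mul_one]
    intro κ _
    rw [if_neg (h1 κ)]
  | succ n ih =>
    intro N _ _ _ _ s hs hcard
    have h0 : (Finset.univ.filter fun κ => Neg s κ).Nonempty := by
      rw [← Finset.card_pos, hcard]
      omega
    obtain ⟨κ, hκ⟩ := h0
    rw [Finset.mem_filter] at hκ
    have hneg : Neg s κ := hκ.2
    have hreal : IsReal κ := neg_real hneg
    obtain ⟨N', i1, i2, i3, i4, i5, i6, s₂, hs₂, ⟨j, hj⟩, h2⟩ := exists_one F N κ hreal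
    let s₁ : (N' ≃ₐ[F] N') →* ℂˣ := s.comp (AlgEquiv.restrictNormalHom N)
    have hs₁ : Sg s₁ := fun g => hs _
    have hn1 : ∀ κ', Neg s₁ κ' ↔ Neg s κ' := fun κ' => neg_res s κ'
    let s₃ : (N' ≃ₐ[F] N') →* ℂˣ := s₂ * s₁
    have hs₃ : Sg s₃ := hs₂.mul hs₁
    have hv1 : ∀ (φ : N' →+* ℂ) (c : N' ≃ₐ[F] N'), IsConj φ c →
        (s₁ c = -1 ↔ Neg s (φ.comp (algebraMap F N'))) := fun φ c hc => by
      rw [neg_iff s₁ hc, hn1]
    have hv2 : ∀ (φ : N' →+* ℂ) (c : N' ≃ₐ[F] N'), IsConj φ c →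
        (s₂ c = -1 ↔ φ.comp (algebraMap F N') = κ) := fun φ c hc => by
      rw [neg_iff s₂ hc, h2]
    have hv3 : ∀ (φ : N' →+* ℂ) (c : N' ≃ₐ[F] N'), IsConj φ c →
        (s₃ c = -1 ↔ (Neg s (φ.comp (algebraMap F N')) ∧ φ.comp (algebraMap F N') ≠ κ)) := by
      intro φ c hc
      have e : s₃ c = s₂ c * s₁ c := rfl
      rw [← hv1 φ c hc, Ne, ← hv2 φ c hc, e]
      rcases hs₂ c with h | h
      · rw [h, one_mul]
        exact ⟨fun h' => ⟨h', neg_one_ne.symm⟩, fun h' => h'.1⟩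
      · have e1 : s₁ c = -1 := by
          rw [hv1 φ c hc, (hv2 φ c hc).1 h]
          exact hneg
        rw [h, e1, neg_mul_neg, one_mul]
        exact ⟨fun h' => absurd h'.symm neg_one_ne, fun h' => absurd rfl h'.2⟩
    have hn3 : ∀ κ', Neg s₃ κ' ↔ (Neg s κ' ∧ κ' ≠ κ) := by
      intro κ'
      constructor
      · rintro ⟨φ, c, hc, rfl, h⟩
        exact (hv3 φ c hc).1 h
      · rintro ⟨h, h'⟩
        obtain ⟨φ, c, hc, rfl⟩ := exists_over N' (neg_real h)
        exact ⟨φ, c, hc, rfl, (hv3 φ c hc).2 ⟨h, h'⟩⟩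
    have hcard3 : (Finset.univ.filter fun κ' => Neg s₃ κ').card = n := by
      have e : (Finset.univ.filter fun κ' => Neg s₃ κ')
          = (Finset.univ.filter fun κ' => Neg s κ').erase κ := by
        ext κ'
        rw [Finset.mem_erase, Finset.mem_filter, Finset.mem_filter, hn3]
        tauto
      rw [e, Finset.card_erase_of_mem (by rw [Finset.mem_filter]; exact hκ), hcard]
      rfl
    have h3 := ih N' s₃ hs₃ hcard3
    have h4 := val_key (A := A) hC hj hs₂ hs₃ (by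
      rintro c ⟨φ, hc⟩ ⟨h5, h6⟩
      exact ((hv3 φ c hc).1 h6).2 ((hv2 φ c hc).1 h5))
    have h5 : s₂ * s₃ = s₁ := hom_sq_mul hs₂ s₁
    rw [h5, val_single hSG2 hC hm κ hreal s₂ hs₂ h2, h3] at h4
    have h6 : A.val F N' (lc s₁) = A.val F N (lc s) := val_lin_res (A := A) (N := N') s
    rw [h6] at h4
    have h7 : (∏ κ' : F →+* ℂ, if Neg s κ' then (b1 A F / m κ')⁻¹ else 1)
        = (b1 A F / m κ)⁻¹ * ∏ κ' : F →+* ℂ, if Neg s₃ κ' then (b1 A F / m κ')⁻¹ else 1 := by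
      rw [← Finset.mul_prod_erase Finset.univ _ (Finset.mem_univ κ), if_pos hneg,
        ← Finset.mul_prod_erase Finset.univ (fun κ' => if Neg s₃ κ' then (b1 A F / m κ')⁻¹ else 1)
          (Finset.mem_univ κ), if_neg (fun h => ((hn3 κ).1 h).2 rfl), one_mul]
      congr 1
      refine Finset.prod_congr rfl fun κ' hκ' => ?_
      have h8 : κ' ≠ κ := Finset.ne_of_mem_erase hκ'
      by_cases h9 : Neg s κ'
      · rw [if_pos h9, if_pos ((hn3 κ').2 ⟨h9, h8⟩)]
      · rw [if_neg h9, if_neg fun h => h9 ((hn3 κ').1 h).1]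
    rw [h7]
    exact comm_alg h4

end

/-- Piece SG3 -/
theorem SG3 (hSG2 : P_SG2) : P_SG3 := by
  classical
  intro M _ A hC F _ _
  have hm := exists_val F A
  choose m hm using hm
  refine ⟨fun κ => b1 A F / m κ, ?_, ?_⟩
  · intro N _ _ _ _ s hs
    exact val_all hSG2 hC hm _ N s hs rfl
  · obtain ⟨N, i1, i2, i3, i4, i5, i6, hN⟩ := exists_ext F F {-1}
    obtain ⟨j, hj⟩ := hN (-1) (by simp)
    rw [map_neg, map_one] at hj
    clear hN i5 i4
    have hfin : FiniteDimensional F N := Module.Finite.of_restrictScalars_finite ℚ F N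
    obtain ⟨s, hs, hodd⟩ := odd_i (K := F) hj
    have h1 : ∀ κ : F →+* ℂ, Neg s κ ↔ IsReal κ := by
      intro κ
      refine ⟨neg_real, fun h => ?_⟩
      obtain ⟨φ, c, hc, hκ⟩ := exists_over N h
      exact ⟨φ, c, hc, hκ, hodd c ⟨φ, hc⟩⟩
    have h2 := JJ_le hC (odd_JJ hs hodd 1)
    rw [mem_TT_char A ((IsChar.lc _).add (IsChar.lc _)), Subgroup.mem_bot,
      A.val_add F N _ _ (IsChar.lc _) (IsChar.lc _), val_lc_one, hom_one_mul,
      val_all hSG2 hC hm _ N s hs rfl] at h2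
    have h3 : (∏ κ : F →+* ℂ, if Neg s κ then (b1 A F / m κ)⁻¹ else 1)
        = (∏ κ : F →+* ℂ, if IsReal κ then b1 A F / m κ else 1)⁻¹ := by
      rw [← Finset.prod_inv_distrib]
      refine Finset.prod_congr rfl fun κ _ => ?_
      by_cases h : IsReal κ
      · rw [if_pos h, if_pos ((h1 κ).2 h)]
      · rw [if_neg h, if_neg fun h' => h ((h1 κ).1 h'), inv_one]
    rw [h3, ← mul_assoc, mul_inv_eq_one] at h2
    rw [pow_two]
    exact h2.symm

end Pool.Agent.W2helper53.SG
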