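import Pool.Agent.W2helper53.SG.Bsw

/-!
# Piece BCO of project SG: the coevaluation and the evaluation
-/

set_option autoImplicit false
set_option linter.unusedSectionVars false
set_option linter.unusedSimpArgs false
set_option backward.isDefEq.respectTransparency false
set_option backward.defeqAttrib.useBackward true

open CategoryTheory Limits MonoidalCategory
open Pool.Agent.Y112.SR Pool.Agent.Y112.KD Pool.Agent.Y112.SC

namespace Pool.Agent.W2helper53.SG

open Pool.Agent.W2helper37.SG

universe v u w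

open Functor.LaxMonoidal Functor.OplaxMonoidal

section

variable {C : Type u} [Category.{v} C] [Preadditive C] [MonoidalCategory C] [SymmetricCategory C]
  {K : Type w} [Field K] (R : SuperRealisation C K)

lemma whisk_bx {P Q Z : C} (f : P ⟶ Q) (u : R.H.obj Q ⟶ R.H.obj Q) (d : R.H.obj Z ⟶ R.H.obj Z) :
    R.H.map (f ▷ Z) ≫ bx R u d = δ R.H P Z ≫ ((R.H.map f ≫ u) ⊗ₘ d) ≫ μ R.H Q Z := by
  rw [Functor.Monoidal.map_whiskerRight]
  simp only [bx, Category.assoc, Functor.Monoidal.μ_δ_assoc]
  rw [← tensorHom_id, tensorHom_comp_tensorHom_assoc, Category.id_comp]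

lemma bx_whisk' {P Q Z : C} (f : P ⟶ Q) (u : R.H.obj P ⟶ R.H.obj P) (d : R.H.obj Z ⟶ R.H.obj Z) :
    bx R u d ≫ R.H.map (f ▷ Z) = δ R.H P Z ≫ ((u ≫ R.H.map f) ⊗ₘ d) ≫ μ R.H Q Z := by
  rw [Functor.Monoidal.map_whiskerRight]
  simp only [bx, Category.assoc, Functor.Monoidal.μ_δ_assoc]
  rw [← tensorHom_id, tensorHom_comp_tensorHom_assoc, Category.comp_id]

lemma bx_lam {Y : C} (d : R.H.obj Y ⟶ R.H.obj Y) :
    bx R (𝟙 (R.H.obj (𝟙_ C))) d ≫ R.H.map (λ_ Y).hom = R.H.map (λ_ Y).hom ≫ d := by
  rw [Functor.Monoidal.map_leftUnitor]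
  simp only [bx, Category.assoc, Functor.Monoidal.μ_δ_assoc]
  rw [← tensorHom_id, tensorHom_comp_tensorHom_assoc, Category.id_comp, Category.comp_id,
    ← leftUnitor_naturality, ← id_tensorHom, tensorHom_comp_tensorHom_assoc, Category.comp_id,
    Category.id_comp]

lemma lam_bx {Y : C} (d : R.H.obj Y ⟶ R.H.obj Y) :
    d ≫ R.H.map (λ_ Y).inv = R.H.map (λ_ Y).inv ≫ bx R (𝟙 (R.H.obj (𝟙_ C))) d := by
  have h1 := congrArg (fun z => R.H.map (λ_ Y).inv ≫ z ≫ R.H.map (λ_ Y).inv) (bx_lam R d)
  simp only [Category.assoc, ← Functor.map_comp, Iso.hom_inv_id, CategoryTheory.Functor.map_id,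
    Category.comp_id] at h1
  rw [h1, ← Functor.map_comp_assoc, Iso.inv_hom_id, CategoryTheory.Functor.map_id,
    Category.id_comp]

end

section

variable {C : Type u} [Category.{v} C] [Preadditive C] [MonoidalCategory C] [SymmetricCategory C]
  [RightRigidCategory C] {K : Type w} [Field K] (R : SuperRealisation C K)

/-- the realisation of the twisted evaluation -/
noncomputable def EE' (M : C) : R.H.obj (M ⊗ Mᘁ) ⟶ R.H.obj (𝟙_ C) :=
  R.H.map ((β_ M Mᘁ).hom ≫ ε_ M Mᘁ)

/-- the realisation of the coevaluation -/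
noncomputable def NN' (M : C) : R.H.obj (𝟙_ C) ⟶ R.H.obj (M ⊗ Mᘁ) := R.H.map (η_ M Mᘁ)

/-- supertraces -/
lemma str (h2 : (2 : K) ≠ 0) (M : C) (g : R.H.obj M ⟶ R.H.obj M) :
    NN' R M ≫ bx R g (𝟙 _) ≫ EE' R M =
      (LinearMap.trace K (R.H.obj M) (g ≫ R.par M).hom) • 𝟙 _ := by
  have h0 := R.finite M
  have h1 := Pool.Agent.Y116.MT.vec_trace (coe R M) (evb R M) (zigzag R M) (g ≫ R.par M)
  have h3 : coe R M ≫ g ▷ R.H.obj Mᘁ ≫ eva R M =
      (LinearMap.trace K (R.H.obj M) (g ≫ R.par M).hom) • 𝟙 _ := by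
    rw [eva_eq R h2, ← h1, ← unit_hom]
    simp only [comp_whiskerRight, Category.assoc]
  have h4 : coe R M ≫ g ▷ R.H.obj Mᘁ ≫ eva R M =
      ε R.H ≫ (NN' R M ≫ bx R g (𝟙 _) ≫ EE' R M) ≫ η R.H := by
    simp only [coe, eva, NN', EE', bx, Category.assoc, tensorHom_id]
  rw [h4] at h3
  have h5 := congrArg (fun z => η R.H ≫ z ≫ ε R.H) h3
  simp only [Category.assoc, Functor.Monoidal.η_ε, Category.comp_id,
    Functor.Monoidal.η_ε_assoc, Linear.smul_comp, Linear.comp_smul, Category.id_comp] at h5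
  exact h5

variable {R} {ι : Type} [Fintype ι] [DecidableEq ι] {o : ι → Bool} {M : C}
  {e : ι → ι → (R.H.obj M ⟶ R.H.obj M)}

lemma e_par (hU : Units R M o e) (l i : ι) : e l i ≫ R.par M = sg K (o i) • e l i := by
  rw [hU.par, Preadditive.comp_sum, Finset.sum_eq_single i]
  · rw [Linear.comp_smul, hU.mul, if_pos rfl]
  · intro j _ hj
    rw [Linear.comp_smul, hU.mul, if_neg (Ne.symm hj), smul_zero]
  · intro h; exact absurd (Finset.mem_univ i) h

lemma par_e (hU : Units R M o e) (l i : ι) : R.par M ≫ e l i = sg K (o l) • e l i := by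
  rw [hU.par, Preadditive.sum_comp, Finset.sum_eq_single l]
  · rw [Linear.smul_comp, hU.mul, if_pos rfl]
  · intro j _ hj
    rw [Linear.smul_comp, hU.mul, if_neg hj, smul_zero]
  · intro h; exact absurd (Finset.mem_univ l) h

/-- an entry of the action on the dual -/
lemma entry (hU : Units R M o e) {A' : ι → ι → Module.End K (R.H.obj Mᘁ)}
    (hre : Re R e (omD M) A') (k i : ι) : bx R (𝟙 _) (ModuleCat.ofHom (A' k i)) =
      -∑ l, bx R (e l i) (𝟙 _) ≫ EE' R M ≫ NN' R M ≫ bx R (e k l) (𝟙 _) := by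
  have h1 : ∀ l, bx R (e l i) (𝟙 _) ≫ R.H.map (omD M) ≫ bx R (e k l) (𝟙 _) =
      bx R (e l l) (ModuleCat.ofHom (A' k i)) := by
    intro l
    rw [hre]
    simp only [Preadditive.sum_comp, Preadditive.comp_sum, bx_comp, Category.id_comp,
      Category.comp_id]
    rw [Finset.sum_eq_single i, Finset.sum_eq_single k]
    · rw [hU.mul i k k l, if_pos rfl, hU.mul l i i l, if_pos rfl]
    · intro k' _ hk'
      rw [hU.mul i k' k l, if_neg hk', comp_zero, bx_zero_left]
    · intro h; exact absurd (Finset.mem_univ k) h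
    · intro i' _ hi'
      refine Finset.sum_eq_zero fun k' _ => ?_
      rw [← Category.assoc, hU.mul l i i' k', if_neg (Ne.symm hi'), zero_comp, bx_zero_left]
    · intro h; exact absurd (Finset.mem_univ i) h
  have h2 : R.H.map (omD M) = -(EE' R M ≫ NN' R M) := by
    rw [omD, Functor.map_neg, EE', NN', ← Functor.map_comp, Category.assoc]
  have h3 : ∑ l, bx R (e l l) (ModuleCat.ofHom (A' k i)) =
      bx R (𝟙 _) (ModuleCat.ofHom (A' k i)) := by
    rw [bx_sum_left, hU.sum]
  rw [← h3, ← Finset.sum_neg_distrib]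
  refine Finset.sum_congr rfl fun l _ => ?_
  rw [← h1 l, h2]
  simp only [Preadditive.neg_comp, Preadditive.comp_neg, Category.assoc]

/-- the parity factor -/
noncomputable def pf (R : SuperRealisation C K) (o : ι → Bool) (M : C) (k i : ι) :
    R.H.obj M ⟶ R.H.obj M := if o k = o i then 𝟙 _ else R.par M

lemma cc_eq (K : Type w) [Field K] (a b : Bool) :
    cc K a b = if b = a then sg K a else 1 := by
  cases a <;> cases b <;> simp [Pool.Agent.W2helper37.SG.cc, sg]

lemma tr_left (hU : Units R M o e) (k i l : ι) :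
    LinearMap.trace K (R.H.obj M) ((pf R o M k i ≫ e l i) ≫ R.par M).hom =
      if l = i then cc K (o i) (o k) else 0 := by
  have h1 : (pf R o M k i ≫ e l i) ≫ R.par M =
      (if o k = o i then sg K (o i) else sg K (o l) * sg K (o i)) • e l i := by
    unfold pf
    split_ifs with h
    · rw [Category.id_comp, e_par hU]
    · rw [par_e hU, Linear.smul_comp, e_par hU, smul_smul]
  rw [h1]
  have h2 : ∀ c : K, LinearMap.trace K (R.H.obj M) (c • e l i).hom = c * (if l = i then 1 else 0) := by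
    intro c
    rw [← hU.tr l i]
    simp
  rw [h2, cc_eq]
  by_cases hl : l = i
  · subst hl
    simp only [if_true, mul_one]
    split_ifs with h
    · rfl
    · rw [sg_mul_self]
  · simp [hl]

lemma tr_right (hU : Units R M o e) (k i l : ι) :
    LinearMap.trace K (R.H.obj M) ((e k l ≫ pf R o M k i) ≫ R.par M).hom =
      if l = k then cc K (o i) (o k) else 0 := by
  have h1 : (e k l ≫ pf R o M k i) ≫ R.par M =
      (if o k = o i then sg K (o l) else 1) • e k l := by
    unfold pf
    split_ifs with h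
    · rw [Category.comp_id, e_par hU]
    · rw [Category.assoc, R.par_sq, Category.comp_id, one_smul]
  rw [h1]
  have h2 : ∀ c : K, LinearMap.trace K (R.H.obj M) (c • e k l).hom = c * (if l = k then 1 else 0) := by
    intro c
    have := hU.tr k l
    rw [show (if l = k then (1 : K) else 0) = if k = l then 1 else 0 by simp only [eq_comm], ← this]
    simp
  rw [h2, cc_eq]
  by_cases hl : l = k
  · subst hl
    simp only [if_true, mul_one]
    split_ifs with h
    · rw [h]
    · rfl
  · simp [hl]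

/-- the coevaluation is invariant -/
lemma inv_coev (h2 : (2 : K) ≠ 0) (hU : Units R M o e)
    {A' : ι → ι → Module.End K (R.H.obj Mᘁ)} (hre : Re R e (omD M) A') (k i : ι) :
    NN' R M ≫ (bx R (cc K (o i) (o k) • e k i) (𝟙 _) +
      bx R (pf R o M k i) (ModuleCat.ofHom (A' k i))) = 0 := by
  have h3 : bx R (pf R o M k i) (ModuleCat.ofHom (A' k i)) =
      bx R (pf R o M k i) (𝟙 _) ≫ bx R (𝟙 _) (ModuleCat.ofHom (A' k i)) := by
    rw [bx_comp, Category.comp_id, Category.id_comp]
  have h4 : NN' R M ≫ bx R (pf R o M k i) (ModuleCat.ofHom (A' k i)) =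
      -∑ l, (NN' R M ≫ bx R (pf R o M k i ≫ e l i) (𝟙 _) ≫ EE' R M) ≫
        NN' R M ≫ bx R (e k l) (𝟙 _) := by
    rw [h3, entry hU hre, Preadditive.comp_neg, Preadditive.comp_neg, Preadditive.comp_sum,
      Preadditive.comp_sum]
    congr 1
    refine Finset.sum_congr rfl fun l _ => ?_
    simp only [Category.assoc]
    rw [← Category.assoc (bx R (pf R o M k i) (𝟙 _)), bx_comp, Category.comp_id]
  rw [Preadditive.comp_add, h4, bx_smul_left, Linear.comp_smul]
  rw [Finset.sum_eq_single i]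
  · rw [str R h2, tr_left hU, if_pos rfl, Linear.smul_comp, Category.id_comp, add_neg_cancel]
  · intro l _ hl
    rw [str R h2, tr_left hU, if_neg hl, zero_smul, zero_comp]
  · intro h; exact absurd (Finset.mem_univ i) h

/-- the twisted evaluation is invariant -/
lemma inv_eva (h2 : (2 : K) ≠ 0) (hU : Units R M o e)
    {A' : ι → ι → Module.End K (R.H.obj Mᘁ)} (hre : Re R e (omD M) A') (k i : ι) :
    (bx R (cc K (o i) (o k) • e k i) (𝟙 _) +
      bx R (pf R o M k i) (ModuleCat.ofHom (A' k i))) ≫ EE' R M = 0 := by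
  have h3 : bx R (pf R o M k i) (ModuleCat.ofHom (A' k i)) =
      bx R (𝟙 _) (ModuleCat.ofHom (A' k i)) ≫ bx R (pf R o M k i) (𝟙 _) := by
    rw [bx_comp, Category.comp_id, Category.id_comp]
  have h4 : bx R (pf R o M k i) (ModuleCat.ofHom (A' k i)) ≫ EE' R M =
      -∑ l, (bx R (e l i) (𝟙 _) ≫ EE' R M) ≫
        NN' R M ≫ bx R (e k l ≫ pf R o M k i) (𝟙 _) ≫ EE' R M := by
    rw [h3, entry hU hre, Preadditive.neg_comp, Preadditive.neg_comp, Preadditive.sum_comp,
      Preadditive.sum_comp]
    congr 1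
    refine Finset.sum_congr rfl fun l _ => ?_
    simp only [Category.assoc]
    rw [← Category.assoc (bx R (e k l) (𝟙 _)), bx_comp, Category.comp_id]
  rw [Preadditive.add_comp, h4, bx_smul_left, Linear.smul_comp]
  rw [Finset.sum_eq_single k]
  · rw [str R h2, tr_right hU, if_pos rfl, Linear.comp_smul, Category.comp_id, add_neg_cancel]
  · intro l _ hl
    rw [str R h2, tr_right hU, if_neg hl, zero_smul, comp_zero]
  · intro h; exact absurd (Finset.mem_univ k) h

lemma sel_par (hU : Units R M o e) :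
    ParRel o (R.par M).hom (fun k i => cc K (o i) (o k) • (e k i).hom) := by
  intro k i
  have h1 : (cc K (o i) (o k) • e k i) ≫ R.par M =
      (sg K (o k) * sg K (o i)) • (R.par M ≫ (cc K (o i) (o k) • e k i)) := by
    rw [Linear.smul_comp, Linear.comp_smul, e_par hU, par_e hU, smul_smul, smul_smul, smul_smul]
    congr 1
    have := sg_mul_self K (o k)
    linear_combination (-(cc K (o i) (o k)) * sg K (o i)) * this
  exact congrArg ModuleCat.Hom.hom h1

/-- the evaluation is invariant -/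
lemma inv_evl (h2 : (2 : K) ≠ 0) (hU : Units R M o e)
    {A' : ι → ι → Module.End K (R.H.obj Mᘁ)} (hre : Re R e (omD M) A')
    (hp : ParRel o (R.par Mᘁ).hom A') (k i : ι) :
    (bx R (ModuleCat.ofHom (A' k i)) (𝟙 _) +
      bx R (pf R o Mᘁ k i) (cc K (o i) (o k) • e k i)) ≫ R.H.map (ε_ M Mᘁ) = 0 := by
  have e1 : R.H.map (ε_ M Mᘁ) = R.H.map (β_ Mᘁ M).hom ≫ EE' R M := by
    rw [EE', ← Functor.map_comp, ← Category.assoc, SymmetricCategory.symmetry, Category.id_comp]
  have hs := sel_par hU
  have key : (bx R (ModuleCat.ofHom (A' k i)) (𝟙 _) +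
      bx R (pf R o Mᘁ k i) (cc K (o i) (o k) • e k i)) ≫ R.H.map (β_ Mᘁ M).hom =
      R.H.map (β_ Mᘁ M).hom ≫ (bx R (cc K (o i) (o k) • e k i) (𝟙 _) +
        bx R (pf R o M k i) (ModuleCat.ofHom (A' k i))) := by
    rw [Preadditive.add_comp, Preadditive.comp_add, add_comm]
    congr 1
    · refine braid_gen R h2 _ _ _ _ ?_
      unfold SS pf
      by_cases hki : o k = o i
      · have b1 : (cc K (o i) (o k) • e k i) ≫ R.par M = R.par M ≫ (cc K (o i) (o k) • e k i) :=
          par_even R o hs hki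
        simp only [if_pos hki, Preadditive.sub_comp, Preadditive.add_comp, Preadditive.comp_sub,
          Preadditive.comp_add, Category.id_comp, Category.comp_id, ← tensorHom_id,
          ← id_tensorHom, tensorHom_comp_tensorHom, b1]
      · have b1 : (cc K (o i) (o k) • e k i) ≫ R.par M =
            -(R.par M ≫ (cc K (o i) (o k) • e k i)) := par_odd R o hs hki
        simp only [if_neg hki, Preadditive.sub_comp, Preadditive.add_comp, Preadditive.comp_sub,
          Preadditive.comp_add, Category.id_comp, Category.comp_id, ← tensorHom_id,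
          ← id_tensorHom, tensorHom_comp_tensorHom, b1, R.par_sq, tens_neg]
        abel
    · refine braid_gen R h2 _ _ _ _ ?_
      unfold SS pf
      by_cases hki : o k = o i
      · have b1 := par_even R o hp hki
        simp only [if_pos hki, Preadditive.sub_comp, Preadditive.add_comp, Preadditive.comp_sub,
          Preadditive.comp_add, Category.id_comp, Category.comp_id, ← tensorHom_id,
          ← id_tensorHom, tensorHom_comp_tensorHom, b1]
      · have b1 := par_odd R o hp hki
        simp only [if_neg hki, Preadditive.sub_comp, Preadditive.add_comp, Preadditive.comp_sub,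
          Preadditive.comp_add, Category.id_comp, Category.comp_id, ← tensorHom_id,
          ← id_tensorHom, tensorHom_comp_tensorHom, b1, R.par_sq, neg_tens]
        abel
  rw [e1, ← Category.assoc, key, Category.assoc, inv_eva h2 hU hre, comp_zero]

lemma pf_coev (k i : ι) : NN' R M ≫ bx R (pf R o M k i) (pf R o Mᘁ k i) = NN' R M := by
  unfold pf
  split_ifs with h
  · rw [bx_one, Category.comp_id]
  · rw [bx_par, NN', R.par_natural, R.par_unit, Category.id_comp]

lemma pf_evl (k i : ι) : bx R (pf R o Mᘁ k i) (pf R o M k i) ≫ R.H.map (ε_ M Mᘁ) =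
    R.H.map (ε_ M Mᘁ) := by
  unfold pf
  split_ifs with h
  · rw [bx_one, Category.id_comp]
  · rw [bx_par, ← R.par_natural, R.par_unit, Category.comp_id]

end

theorem p_bco : P_BCO.{v, u, w} := by
  intro C _ _ _ _ _ _ _ _ K _ R M Y ι _ _ o e hU A' hG D
  have hK := R_charZero R
  have h2 : (2 : K) ≠ 0 := two_ne_zero
  refine ⟨fun k i => ?_, fun k i => ?_⟩
  · set a : R.H.obj M ⟶ R.H.obj M := cc K (o i) (o k) • e k i with ha
    set a' := ModuleCat.ofHom (A' k i) with ha'
    set d := ModuleCat.ofHom (D k i) with hd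
    have key : d ≫ R.H.map (coev M Y) = R.H.map (coev M Y) ≫
        (bx R a (𝟙 _) + bx R (pf R o M k i) (bx R a' (𝟙 _) + bx R (pf R o Mᘁ k i) d)) := by
      have e1 : bx R a (𝟙 (R.H.obj (Mᘁ ⊗ Y))) = bx R a (bx R (𝟙 _) (𝟙 _)) := by rw [bx_one]
      have e2 : R.H.map (α_ M Mᘁ Y).hom ≫
          (bx R a (𝟙 _) + bx R (pf R o M k i) (bx R a' (𝟙 _) + bx R (pf R o Mᘁ k i) d)) =
          (bx R (bx R a (𝟙 _) + bx R (pf R o M k i) a') (𝟙 _) +
            bx R (bx R (pf R o M k i) (pf R o Mᘁ k i)) d) ≫ R.H.map (α_ M Mᘁ Y).hom := by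
        rw [bx_add_right, e1, bx_add_left, Preadditive.comp_add, Preadditive.comp_add,
          Preadditive.add_comp, Preadditive.add_comp, bx_assoc, bx_assoc, bx_assoc]
        abel
      have e3 : R.H.map (η_ M Mᘁ ▷ Y) ≫ (bx R (bx R a (𝟙 _) + bx R (pf R o M k i) a') (𝟙 _) +
            bx R (bx R (pf R o M k i) (pf R o Mᘁ k i)) d) =
          bx R (𝟙 _) d ≫ R.H.map (η_ M Mᘁ ▷ Y) := by
        have h3 := inv_coev h2 hU hG.re k i
        have h4 := pf_coev (R := R) (o := o) (M := M) k i
        unfold NN' at h3 h4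
        rw [Preadditive.comp_add, whisk_bx, whisk_bx, h3, h4, bx_whisk', Category.id_comp]
        simp [MonoidalCategory.tensorHom_def]
      unfold coev
      rw [Functor.map_comp, Functor.map_comp]
      simp only [Category.assoc]
      rw [e2, ← Category.assoc (R.H.map (η_ M Mᘁ ▷ Y)), e3, ← Category.assoc d, lam_bx]
      simp only [Category.assoc]
    exact congrArg ModuleCat.Hom.hom key
  · set a : R.H.obj M ⟶ R.H.obj M := cc K (o i) (o k) • e k i with ha
    set a' := ModuleCat.ofHom (A' k i) with ha'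
    set d := ModuleCat.ofHom (D k i) with hd
    have key : (bx R a' (𝟙 _) + bx R (pf R o Mᘁ k i) (bx R a (𝟙 _) + bx R (pf R o M k i) d)) ≫
        R.H.map (evl M Y) = R.H.map (evl M Y) ≫ d := by
      have e1 : bx R a' (𝟙 (R.H.obj (M ⊗ Y))) = bx R a' (bx R (𝟙 _) (𝟙 _)) := by rw [bx_one]
      have e2 : (bx R a' (𝟙 _) + bx R (pf R o Mᘁ k i) (bx R a (𝟙 _) + bx R (pf R o M k i) d)) ≫
          R.H.map (α_ Mᘁ M Y).inv = R.H.map (α_ Mᘁ M Y).inv ≫
          (bx R (bx R a' (𝟙 _) + bx R (pf R o Mᘁ k i) a) (𝟙 _) +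
            bx R (bx R (pf R o Mᘁ k i) (pf R o M k i)) d) := by
        rw [bx_add_right, e1, bx_add_left, Preadditive.comp_add, Preadditive.comp_add,
          Preadditive.add_comp, Preadditive.add_comp, bx_assoc_inv, bx_assoc_inv, bx_assoc_inv]
        abel
      have e3 : (bx R (bx R a' (𝟙 _) + bx R (pf R o Mᘁ k i) a) (𝟙 _) +
            bx R (bx R (pf R o Mᘁ k i) (pf R o M k i)) d) ≫ R.H.map (ε_ M Mᘁ ▷ Y) =
          R.H.map (ε_ M Mᘁ ▷ Y) ≫ bx R (𝟙 _) d := by
        have h3 := inv_evl h2 hU hG.re hG.par k i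
        have h4 := pf_evl (R := R) (o := o) (M := M) k i
        rw [Preadditive.add_comp, bx_whisk', bx_whisk', h3, h4, whisk_bx, Category.comp_id]
        simp [MonoidalCategory.tensorHom_def]
      unfold evl
      rw [Functor.map_comp, Functor.map_comp, ← Category.assoc, e2, Category.assoc,
        ← Category.assoc (bx R _ _ + _), e3]
      simp only [Category.assoc]
      rw [bx_lam]
    exact congrArg ModuleCat.Hom.hom key

end Pool.Agent.W2helper53.SG
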