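import Pool.Agent.W2helper37.SG.Stm2

/-!
# Piece BSW of project SG: the symmetry of two factors
-/

set_option autoImplicit false
set_option linter.unusedSectionVars false
set_option linter.unusedSimpArgs false
set_option backward.isDefEq.respectTransparency false
set_option backward.defeqAttrib.useBackward true

open CategoryTheory Limits MonoidalCategory
open Pool.Agent.Y112.SR Pool.Agent.Y112.KD Pool.Agent.Y112.SC

namespace Pool.Agent.W2helper53.SG

open Pool.Agent.W2helper37.SG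

universe v u w

open Functor.LaxMonoidal Functor.OplaxMonoidal

section

variable {C : Type u} [Category.{v} C] [Preadditive C] [MonoidalCategory C] [SymmetricCategory C]
  {K : Type w} [Field K] (R : SuperRealisation C K)

/-- twice the sign of the super symmetry -/
noncomputable def SS (X Y : C) : R.H.obj X ⊗ R.H.obj Y ⟶ R.H.obj X ⊗ R.H.obj Y :=
  𝟙 _ + R.par X ▷ R.H.obj Y + R.H.obj X ◁ R.par Y - (R.par X ⊗ₘ R.par Y)

lemma braid_gen (h2 : (2 : K) ≠ 0) {X Y : C} (u u' : R.H.obj X ⟶ R.H.obj X)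
    (w w' : R.H.obj Y ⟶ R.H.obj Y) (h : (u ⊗ₘ w) ≫ SS R X Y = SS R X Y ≫ (u' ⊗ₘ w')) :
    bx R u w ≫ R.H.map (β_ X Y).hom = R.H.map (β_ X Y).hom ≫ bx R w' u' := by
  have h4 : (2 : K) • ((u ⊗ₘ w) ≫ μ R.H X Y ≫ R.H.map (β_ X Y).hom) =
      (2 : K) • (μ R.H X Y ≫ R.H.map (β_ X Y).hom ≫ δ R.H Y X ≫ (w' ⊗ₘ u') ≫ μ R.H Y X) := by
    rw [← Linear.comp_smul, R.symm, ← Category.assoc (u ⊗ₘ w)]
    change ((u ⊗ₘ w) ≫ SS R X Y) ≫ _ = _
    rw [h, Category.assoc, BraidedCategory.braiding_naturality_assoc]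
    have h5 : (2 : K) • (μ R.H X Y ≫ R.H.map (β_ X Y).hom ≫ δ R.H Y X ≫ (w' ⊗ₘ u') ≫ μ R.H Y X) =
        ((2 : K) • (μ R.H X Y ≫ R.H.map (β_ X Y).hom)) ≫ δ R.H Y X ≫ (w' ⊗ₘ u') ≫ μ R.H Y X := by
      rw [Linear.smul_comp, Category.assoc]
    rw [h5, R.symm]
    simp only [Category.assoc, Functor.Monoidal.μ_δ_assoc]
    rfl
  have h5 := congrArg (fun z => (2 : K)⁻¹ • z) h4
  simp only [smul_smul, inv_mul_cancel₀ h2, one_smul] at h5
  rw [bx, Category.assoc, Category.assoc, h5, bx, Functor.Monoidal.δ_μ_assoc]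

lemma bx_whisk {P Q Z : C} (x : P ⟶ Q) (u : R.H.obj P ⟶ R.H.obj P) (u' : R.H.obj Q ⟶ R.H.obj Q)
    (d : R.H.obj Z ⟶ R.H.obj Z) (h : u ≫ R.H.map x = R.H.map x ≫ u') :
    bx R u d ≫ R.H.map (x ▷ Z) = R.H.map (x ▷ Z) ≫ bx R u' d := by
  rw [Functor.Monoidal.map_whiskerRight]
  simp only [bx, Category.assoc, Functor.Monoidal.μ_δ_assoc]
  rw [← tensorHom_id, tensorHom_comp_tensorHom_assoc, tensorHom_comp_tensorHom_assoc, h,
    Category.comp_id, Category.id_comp]

lemma bsw_main {X Y Z : C} (a : R.H.obj X ⟶ R.H.obj X) (b : R.H.obj Y ⟶ R.H.obj Y)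
    (d : R.H.obj Z ⟶ R.H.obj Z) (p : R.H.obj X ⟶ R.H.obj X) (q : R.H.obj Y ⟶ R.H.obj Y)
    (h1 : bx R a (𝟙 _) ≫ R.H.map (β_ X Y).hom = R.H.map (β_ X Y).hom ≫ bx R q a)
    (h2 : bx R p b ≫ R.H.map (β_ X Y).hom = R.H.map (β_ X Y).hom ≫ bx R b (𝟙 _))
    (h3 : bx R p q ≫ R.H.map (β_ X Y).hom = R.H.map (β_ X Y).hom ≫ bx R q p) :
    (bx R a (𝟙 _) + bx R p (bx R b (𝟙 _) + bx R q d)) ≫ R.H.map (swp X Y Z) =
      R.H.map (swp X Y Z) ≫ (bx R b (𝟙 _) + bx R q (bx R a (𝟙 _) + bx R p d)) := by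
  have key : ∀ (u : R.H.obj X ⟶ R.H.obj X) (w : R.H.obj Y ⟶ R.H.obj Y)
      (w' : R.H.obj Y ⟶ R.H.obj Y) (u' : R.H.obj X ⟶ R.H.obj X) (e : R.H.obj Z ⟶ R.H.obj Z),
      bx R u w ≫ R.H.map (β_ X Y).hom = R.H.map (β_ X Y).hom ≫ bx R w' u' →
      bx R u (bx R w e) ≫ R.H.map (swp X Y Z) = R.H.map (swp X Y Z) ≫ bx R w' (bx R u' e) := by
    intro u w w' u' e h
    rw [swp, Functor.map_comp, Functor.map_comp, ← Category.assoc, bx_assoc_inv, Category.assoc,
      ← Category.assoc (bx R (bx R u w) e), bx_whisk R _ _ _ e h]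
    simp only [Category.assoc]
    rw [bx_assoc]
  have e1 : bx R a (𝟙 (R.H.obj (Y ⊗ Z))) = bx R a (bx R (𝟙 _) (𝟙 _)) := by rw [bx_one]
  have e2 : bx R b (𝟙 (R.H.obj (X ⊗ Z))) = bx R b (bx R (𝟙 _) (𝟙 _)) := by rw [bx_one]
  rw [bx_add_right, bx_add_right, e1, e2, Preadditive.add_comp, Preadditive.add_comp,
    Preadditive.comp_add, Preadditive.comp_add, key _ _ _ _ _ h1, key _ _ _ _ _ h2,
    key _ _ _ _ _ h3]
  abel

end

lemma neg_tens {K : Type w} [Field K] {M N P Q : ModuleCat.{w} K} (f : M ⟶ N) (g : P ⟶ Q) :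
    (-f) ⊗ₘ g = -(f ⊗ₘ g) := by
  rw [eq_neg_iff_add_eq_zero, ← MonoidalPreadditive.add_tensor, neg_add_cancel]
  simp [MonoidalCategory.tensorHom_def]

lemma tens_neg {K : Type w} [Field K] {M N P Q : ModuleCat.{w} K} (f : M ⟶ N) (g : P ⟶ Q) :
    f ⊗ₘ (-g) = -(f ⊗ₘ g) := by
  rw [eq_neg_iff_add_eq_zero, ← MonoidalPreadditive.tensor_add, neg_add_cancel]
  simp [MonoidalCategory.tensorHom_def]

lemma sg_mul_self (K : Type w) [Field K] (b : Bool) : sg K b * sg K b = 1 := by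
  cases b <;> simp [sg]

lemma sg_mul_ne (K : Type w) [Field K] {b c : Bool} (h : b ≠ c) : sg K b * sg K c = -1 := by
  cases b <;> cases c <;> simp_all [sg]

section

variable {C : Type u} [Category.{v} C] [Preadditive C] [MonoidalCategory C] [SymmetricCategory C]
  {K : Type w} [Field K] (R : SuperRealisation C K)

lemma par_even {ι : Type} (o : ι → Bool) {X : C} {A : ι → ι → Module.End K (R.H.obj X)}
    (h : ParRel o (R.par X).hom A) {k i : ι} (hki : o k = o i) :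
    ModuleCat.ofHom (A k i) ≫ R.par X = R.par X ≫ ModuleCat.ofHom (A k i) := by
  have h1 := h k i
  rw [hki, sg_mul_self, one_smul] at h1
  exact ModuleCat.hom_ext h1

lemma par_odd {ι : Type} (o : ι → Bool) {X : C} {A : ι → ι → Module.End K (R.H.obj X)}
    (h : ParRel o (R.par X).hom A) {k i : ι} (hki : o k ≠ o i) :
    ModuleCat.ofHom (A k i) ≫ R.par X = -(R.par X ≫ ModuleCat.ofHom (A k i)) := by
  have h1 := h k i
  rw [sg_mul_ne K hki, neg_smul, one_smul] at h1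
  exact ModuleCat.hom_ext h1

end

theorem p_bsw : P_BSW.{v, u, w} := by
  intro C _ _ _ _ _ _ _ _ K _ R X Y Z ι _ _ o A B D hA hB k i
  have hK := R_charZero R
  have h2 : (2 : K) ≠ 0 := two_ne_zero
  have pX := R.par_sq X
  have pY := R.par_sq Y
  have key : (bx R (ModuleCat.ofHom (A k i)) (𝟙 _) + bx R (if o k = o i then 𝟙 _ else R.par X)
      (bx R (ModuleCat.ofHom (B k i)) (𝟙 _) + bx R (if o k = o i then 𝟙 _ else R.par Y)
        (ModuleCat.ofHom (D k i)))) ≫ R.H.map (swp X Y Z) =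
      R.H.map (swp X Y Z) ≫ (bx R (ModuleCat.ofHom (B k i)) (𝟙 _) +
        bx R (if o k = o i then 𝟙 _ else R.par Y) (bx R (ModuleCat.ofHom (A k i)) (𝟙 _) +
          bx R (if o k = o i then 𝟙 _ else R.par X) (ModuleCat.ofHom (D k i)))) := by
    by_cases hki : o k = o i
    · simp only [if_pos hki]
      have a1 := par_even R o hA hki
      have b1 := par_even R o hB hki
      refine bsw_main R _ _ _ _ _ ?_ ?_ ?_ <;> refine braid_gen R h2 _ _ _ _ ?_ <;> unfold SS <;>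
        simp only [Preadditive.sub_comp, Preadditive.add_comp, Preadditive.comp_sub,
          Preadditive.comp_add, Category.id_comp, Category.comp_id, ← tensorHom_id, ← id_tensorHom,
          tensorHom_comp_tensorHom, a1, b1]
    · simp only [if_neg hki]
      have a1 := par_odd R o hA hki
      have b1 := par_odd R o hB hki
      refine bsw_main R _ _ _ _ _ ?_ ?_ ?_ <;> refine braid_gen R h2 _ _ _ _ ?_ <;> unfold SS <;>
        simp only [Preadditive.sub_comp, Preadditive.add_comp, Preadditive.comp_sub,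
          Preadditive.comp_add, Category.id_comp, Category.comp_id, ← tensorHom_id, ← id_tensorHom,
          tensorHom_comp_tensorHom, a1, b1, pX, pY]
      · simp only [neg_tens]
        abel
      · simp only [tens_neg]
        abel
  exact congrArg ModuleCat.Hom.hom key

end Pool.Agent.W2helper53.SG
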